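import Pool.Agent.H57.U2

/-!
The geometric realisation of a discrete tree metric is a simplicial tree; displacement of powers of
isometries seen from different base points.
-/

set_option autoImplicit false

namespace Pool.Agent.H25.INS

open Pool.Agent.H57 Pool.Agent.H57.TreeMet

variable {X : Type} {T : TreeMet X}

/-- the four point inequality with constant zero -/
theorem four_re [Nonempty X] (f g z w : T.Re) :
    dist f g + dist z w ≤ max (dist f z + dist g w) (dist f w + dist g z) := by
  obtain ⟨a, b, h1, h2, h3⟩ := exists_seg f g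
  obtain ⟨c, e, k1, k2, k3⟩ := exists_seg z w
  have hfa := f.ext'.nonneg a
  have hzc := z.ext'.nonneg c
  have hd1 : 0 ≤ dist f g := dist_nonneg
  have hd2 : 0 ≤ dist z w := dist_nonneg
  have hgb : g.1 b = T.D a b - (f.1 a + dist f g) := by
    rw [h2]
    exact ga_right h3
  have hwe : w.1 e = T.D c e - (z.1 c + dist z w) := by
    rw [k2]
    exact ga_right k3
  have key : ∀ (p q : T.Re) (x y : X), T.D x y ≤ p.1 x + q.1 y + dist p q := by
    intro p q x y
    have h4 := p.ext'.lo x y
    have h5 := (abs_le.1 (le_dist p q y)).2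
    linarith
  have m := T.D_four a b c e
  rcases le_max_iff.1 m with m | m
  · apply le_max_of_le_left
    have n1 := key f z a c
    have n2 := key g w b e
    linarith
  · apply le_max_of_le_right
    have n1 := key f w a e
    have n2 := key g z b c
    linarith

/-- every point of the realisation lies on an edge -/
theorem edge_re (hnb : ∀ x : X, ∃ y, T.d x y = 1) (f : T.Re) :
    ∃ v w : X, T.d v w = 1 ∧ dist (T.io v) f + dist f (T.io w) = 1 := by
  obtain ⟨f, v, w, t, h0, h1, rfl⟩ := f
  have hio : ∀ (z : X) (j : ℕ) (hj : j ≤ T.d v w), T.d v z = j → T.d z w = T.d v w - j →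
      T.io z = ⟨T.ga v w j, v, w, j, Nat.cast_nonneg _, by unfold D; exact_mod_cast hj, rfl⟩ := by
    intro z j hj hz1 hz2
    have e1 : T.D v z = j := by unfold D; rw [hz1]
    have e2 : T.D z w = T.D v w - j := by unfold D; rw [hz2]; push_cast [hj]; ring
    have e3 : (T.io z).1 v + (T.io z).1 w = T.D v w := by
      change T.D v z + T.D w z = T.D v w
      rw [T.D_comm w z, e1, e2]; ring
    have e4 := (T.io z).ext'.eq_ga e3
    have e5 : (T.io z).1 v = j := e1
    apply Re.ext0
    rw [e4, e5]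
  by_cases hvw : T.d v w = 0
  · -- a vertex
    have hD : T.D v w = 0 := by unfold D; rw [hvw]; simp
    have ht : t = ((0 : ℕ) : ℝ) := by
      push_cast
      linarith
    obtain ⟨y, hy⟩ := hnb v
    have e := hio v 0 (Nat.zero_le _) (T.self v) (by rw [Nat.sub_zero])
    subst ht
    refine ⟨v, y, hy, ?_⟩
    rw [← e, dist_self, dist_io, zero_add]
    unfold D
    rw [hy]
    simp
  · -- a point of a segment of positive length
    obtain ⟨j, hj, hj1, hj2⟩ : ∃ j : ℕ, j + 1 ≤ T.d v w ∧ (j : ℝ) ≤ t ∧ t ≤ (j : ℝ) + 1 := by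
      by_cases hlt : t < T.D v w
      · refine ⟨⌊t⌋₊, ?_, Nat.floor_le h0, (Nat.lt_floor_add_one t).le⟩
        have h5 : (⌊t⌋₊ : ℝ) < T.d v w := (Nat.floor_le h0).trans_lt hlt
        have h6 : ⌊t⌋₊ < T.d v w := by exact_mod_cast h5
        omega
      · have hte : t = T.D v w := le_antisymm h1 (not_lt.1 hlt)
        refine ⟨T.d v w - 1, by omega, ?_, ?_⟩
        · rw [hte]
          unfold D
          exact_mod_cast Nat.sub_le _ _
        · rw [hte]
          unfold D
          have : T.d v w = (T.d v w - 1) + 1 := by omega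
          exact_mod_cast this.le
    obtain ⟨z2, hz21, hz22⟩ := T.geo v w (j + 1) hj
    obtain ⟨z1, hz11, hz12⟩ := T.geo v z2 j (by omega)
    have h7 : T.d z1 w = T.d v w - j := by
      have a1 := T.tri z1 z2 w
      have a2 := T.tri v z1 w
      omega
    have e1 := hio z1 j (by omega) hz11 h7
    have e2 := hio z2 (j + 1) hj hz21 hz22
    have hj0 : (0 : ℝ) ≤ (j : ℝ) := Nat.cast_nonneg j
    have hjD : (j : ℝ) + 1 ≤ T.D v w := by unfold D; exact_mod_cast hj
    refine ⟨z1, z2, by omega, ?_⟩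
    rw [e1, e2, dist_ga hj0 (by linarith) h0 h1, dist_ga h0 h1 (by positivity) (by
      push_cast; exact hjD)]
    push_cast
    rw [abs_of_nonpos (by linarith), abs_of_nonpos (by linarith)]
    ring

section isom

variable {S : Type} [MetricSpace S]

theorem dist_zpow (g : S ≃ᵢ S) (s : S) (m n : ℤ) :
    dist ((g ^ m) s) ((g ^ n) s) = dist s ((g ^ (n - m)) s) := by
  have h : g ^ n = g ^ m * g ^ (n - m) := by rw [← zpow_add]; congr 1; ring
  rw [h, IsometryEquiv.mul_apply, IsometryEquiv.dist_eq]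

theorem dist_pow_le (g : S ≃ᵢ S) (s : S) (n : ℕ) : dist s ((g ^ n) s) ≤ n * dist s (g s) := by
  induction n with
  | zero => simp
  | succ n ih =>
    have h1 : dist ((g ^ n) s) ((g ^ (n + 1)) s) = dist s (g s) := by
      rw [pow_succ, IsometryEquiv.mul_apply, IsometryEquiv.dist_eq]
    have h2 := dist_triangle s ((g ^ n) s) ((g ^ (n + 1)) s)
    push_cast
    linarith

theorem dist_zpow_le (g : S ≃ᵢ S) (s : S) (n : ℤ) :
    dist s ((g ^ n) s) ≤ |(n : ℝ)| * dist s (g s) := by
  obtain ⟨k, rfl | rfl⟩ := n.eq_nat_or_neg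
  · rw [zpow_natCast]
    have := dist_pow_le g s k
    simpa using this
  · have h := dist_zpow g s (k : ℤ) 0
    rw [zpow_zero, zero_sub] at h
    rw [← h, zpow_natCast]
    have := dist_pow_le g s k
    rw [dist_comm] at this
    simpa using this

/-- from one base point to all base points -/
theorem lox_all (g : S ≃ᵢ S) (o : S) (h : ∀ n : ℤ, |(n : ℝ)| ≤ dist o ((g ^ n) o)) (s : S) :
    ∃ L A : ℝ, 1 ≤ L ∧ 0 ≤ A ∧ ∀ m n : ℤ,
      |(m : ℝ) - n| / L - A ≤ dist ((g ^ m) s) ((g ^ n) s) ∧
      dist ((g ^ m) s) ((g ^ n) s) ≤ L * |(m : ℝ) - n| + A := by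
  refine ⟨1 + dist s (g s), 2 * dist s o, by linarith [dist_nonneg (x := s) (y := g s)],
    by positivity, fun m n => ?_⟩
  rw [dist_zpow]
  have hc : |(m : ℝ) - n| = |((n - m : ℤ) : ℝ)| := by push_cast; exact abs_sub_comm _ _
  rw [hc]
  set k : ℤ := n - m with hk
  have hL : 1 ≤ 1 + dist s (g s) := by linarith [dist_nonneg (x := s) (y := g s)]
  have h1 := h k
  have h2 := dist_triangle4 o s ((g ^ k) s) ((g ^ k) o)
  rw [IsometryEquiv.dist_eq, dist_comm o s] at h2
  have h3 := dist_zpow_le g s k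
  have h4 : |(k : ℝ)| / (1 + dist s (g s)) ≤ |(k : ℝ)| := div_le_self (abs_nonneg _) hL
  have h5 := abs_nonneg (k : ℝ)
  have h6 : 0 ≤ dist s o := dist_nonneg
  constructor
  · linarith
  · nlinarith

theorem gp_le (s o x y x' y' : S) (a : ℝ) (ho : dist s o ≤ a) (hx : dist x x' ≤ a)
    (hy : dist y y' ≤ a) :
    (dist s x + dist s y - dist x y) / 2 ≤ (dist o x' + dist o y' - dist x' y') / 2 + 3 * a := by
  have h1 := dist_triangle4 s o x' x
  have h2 := dist_triangle4 s o y' y
  have h3 := dist_triangle4 x' x y y'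
  rw [dist_comm x' x] at h1 h3
  rw [dist_comm y' y] at h2
  linarith

end isom

/-- every vertex of the tree of helper57's construction has a neighbour -/
theorem exists_nbr_V (x : V) : ∃ y, TV.d x y = 1 := by
  obtain ⟨l, -, hl⟩ := LL_unbounded (TV.d nil x)
  have h1 : TV.d nil (l nil) ≤ TV.d nil x + TV.d x (l nil) := TV.tri _ _ _
  have h2 : TV.d nil (l nil) = 2 * (TV.d nil x + 1) := hl
  obtain ⟨y, hy, -⟩ := TV.geo x (l nil) 1 (by omega)
  exact ⟨y, hy⟩

end Pool.Agent.H25.INS
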